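import Pool.Agent.V11302.Jac4

/-!
MP_08d8ea_nt, Q1 (negated form): `p = 11`, `a = 8`, `k = 2`, `l = 199`.

`curvePoly p k a l` is `Y ^ p - x (a - x) ^ k` over `F_l(x) = RatFunc (ZMod l)`; its function field is
`AdjoinRoot (curvePoly p k a l)`, and `FunctionField.ringOfIntegers` is the integral closure of
`F_l[x]` in it, i.e. the coordinate ring of the smooth affine part of the curve. For the curve
at hand there is exactly one point at infinity and it is rational, so the class group of this ring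
is the group of rational points of the Jacobian.
-/

open Pool.Agent.V11302.Jac

theorem Pool.Agent.Results.MP_08d8ea_nt.EvenJacobian.result :
    ∃ (p k : ℕ) (a : ℤ) (l : ℕ) (_ : Fact l.Prime),
      p.Prime ∧ 5 < p ∧ Even a ∧ (∀ q : ℕ, q.Prime → ¬ ((q : ℤ) ^ p ∣ a)) ∧
      2 ≤ k ∧ k ≤ p - 3 ∧ k ≠ (p - 1) / 2 ∧
      l % p = 1 ∧ ¬ ((l : ℤ) ∣ a) ∧ (∀ b : ZMod l, b ^ p ≠ (a : ZMod l)) ∧
      ∃ (_ : Fact (Irreducible (curvePoly p k a l))),
        Finite (ClassGroup (FunctionField.ringOfIntegers (ZMod l)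
          (AdjoinRoot (curvePoly p k a l)))) ∧
        Even (Nat.card (ClassGroup (FunctionField.ringOfIntegers (ZMod l)
          (AdjoinRoot (curvePoly p k a l))))) := by
  refine ⟨11, 2, 8, 199, fact199, by norm_num, by norm_num, by decide, ?_, by norm_num,
    by norm_num, by norm_num, by norm_num, by norm_num, ?_, factIrr, ?_, ?_⟩
  · intro q hq h
    have h1 : (q : ℤ) ^ 11 ≤ 8 := Int.le_of_dvd (by norm_num) h
    have h2 : (2 : ℤ) ≤ q := by exact_mod_cast hq.two_le
    have h3 : (2 : ℤ) ^ 11 ≤ (q : ℤ) ^ 11 := pow_le_pow_left₀ (by norm_num) h2 11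
    norm_num at h3
    linarith
  · have h : ∀ b : ZMod 199, b ^ 11 ≠ (8 : ZMod 199) := by decide +kernel
    intro b
    have h8 : ((8 : ℤ) : ZMod 199) = 8 := by norm_num
    rw [h8]
    exact h b
  · exact Finite.of_fintype (ClassGroup (FunctionField.ringOfIntegers (ZMod 199) K))
  · exact class_even
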